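import Mathlib

set_option autoImplicit false

/-! Star matrix units for a finite-dimensional star subalgebra of the bounded operators on a
Hilbert space. -/

namespace Pool.Agent.Lib.BM10

open Module

variable {H : Type} [NormedAddCommGroup H] [InnerProductSpace ℂ H] [CompleteSpace H]

lemma star_mul_self_ne {x : H →L[ℂ] H} (hx : x ≠ 0) : star x * x ≠ 0 := fun h =>
  hx (CStarRing.star_mul_self_eq_zero_iff x |>.1 h)

/-- a nonzero self-adjoint element `x` of `D` has a nonzero spectral projection `e` in `D`, which is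
a polynomial in `x` without constant term. -/
lemma exists_spec (D : Submodule ℂ (H →L[ℂ] H)) [FiniteDimensional ℂ D]
    (hmul : ∀ x ∈ D, ∀ y ∈ D, x * y ∈ D) {x : H →L[ℂ] H} (hx : x ∈ D) (hs : star x = x)
    (h0 : x ≠ 0) : ∃ e ∈ D, e ≠ 0 ∧ star e = e ∧ e * e = e ∧ (∃ c : ℂ, x * e = c • e) ∧
      ∀ q : H →L[ℂ] H, q * x = x → q * e = e := by
  let C : Submodule ℂ (H →L[ℂ] H) := Submodule.span ℂ (Set.range fun k : ℕ => x ^ (k + 1))
  have hpow : ∀ k : ℕ, x ^ (k + 1) ∈ D := by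
    intro k
    induction k with
    | zero => simpa using hx
    | succ k ih => rw [pow_succ]; exact hmul _ ih _ hx
  have hCD : C ≤ D := Submodule.span_le.2 (by rintro _ ⟨k, rfl⟩; exact hpow k)
  have : FiniteDimensional ℂ C := Submodule.finiteDimensional_of_le hCD
  have hxC : x ∈ C := Submodule.subset_span ⟨0, by simp⟩
  have : Nontrivial C := ⟨⟨⟨x, hxC⟩, 0, fun h => h0 (congrArg Subtype.val h)⟩⟩
  have hl : ∀ y ∈ C, x * y ∈ C := by
    intro y hy
    induction hy using Submodule.span_induction with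
    | mem _ h => obtain ⟨k, rfl⟩ := h; exact Submodule.subset_span ⟨k + 1, by simp [pow_succ']⟩
    | zero => simp
    | add a b _ _ ha hb => rw [mul_add]; exact C.add_mem ha hb
    | smul c a _ ha => rw [mul_smul_comm]; exact C.smul_mem c ha
  have hst : ∀ y ∈ C, star y ∈ C := by
    intro y hy
    induction hy using Submodule.span_induction with
    | mem _ h => obtain ⟨k, rfl⟩ := h; exact Submodule.subset_span ⟨k, by simp [star_pow, hs]⟩
    | zero => simp
    | add a b _ _ ha hb => rw [star_add]; exact C.add_mem ha hb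
    | smul c a _ ha => rw [star_smul]; exact C.smul_mem _ ha
  have hq : ∀ q : H →L[ℂ] H, q * x = x → ∀ y ∈ C, q * y = y := by
    intro q hqx y hy
    induction hy using Submodule.span_induction with
    | mem _ h => obtain ⟨k, rfl⟩ := h; simp only [pow_succ']; rw [← mul_assoc, hqx]
    | zero => simp
    | add a b _ _ ha hb => rw [mul_add, ha, hb]
    | smul c a _ ha => rw [mul_smul_comm, ha]
  let f : Module.End ℂ C := (LinearMap.mulLeft ℂ x).restrict hl
  obtain ⟨c, hc⟩ := Module.End.exists_eigenvalue f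
  obtain ⟨⟨y, hy⟩, hyv⟩ := hc.exists_hasEigenvector
  have hy0 : y ≠ 0 := fun h => hyv.2 (Subtype.ext h)
  have hxy : x * y = c • y := congrArg Subtype.val hyv.apply_eq_smul
  have hall : ∀ w ∈ C, ∃ t : ℂ, w * y = t • y := by
    intro w hw
    induction hw using Submodule.span_induction with
    | mem _ h =>
      obtain ⟨k, rfl⟩ := h
      refine ⟨c ^ (k + 1), ?_⟩
      induction k with
      | zero => simpa using hxy
      | succ k ih =>
        simp only at ih ⊢
        rw [pow_succ' x, mul_assoc, ih, mul_smul_comm, hxy, smul_smul, ← pow_succ]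
    | zero => exact ⟨0, by simp⟩
    | add a b _ _ ha hb =>
      obtain ⟨s, hs⟩ := ha
      obtain ⟨t, ht⟩ := hb
      exact ⟨s + t, by rw [add_mul, hs, ht, add_smul]⟩
    | smul r a _ ha =>
      obtain ⟨s, hs⟩ := ha
      exact ⟨r * s, by rw [smul_mul_assoc, hs, smul_smul]⟩
  obtain ⟨s, hs1⟩ := hall _ (hst y hy)
  have hz0 : star y * y ≠ 0 := star_mul_self_ne hy0
  set z := star y * y with hz
  have hzs : star z = z := by rw [hz, star_mul, star_star]
  have hzC : z ∈ C := by rw [hs1]; exact C.smul_mem _ hy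
  obtain ⟨t, ht⟩ := hall _ hzC
  have hzz : z * z = t • z := by
    nth_rewrite 2 [hs1]
    rw [mul_smul_comm, ht, smul_comm, ← hs1]
  have ht0 : t ≠ 0 := by
    rintro rfl
    apply star_mul_self_ne hz0
    rw [hzs, hzz, zero_smul]
  have hts : star t = t := by
    have h1 := congrArg star hzz
    rw [star_mul, hzs, star_smul, hzs, hzz] at h1
    have h2 : (star t - t) • z = 0 := by rw [sub_smul, ← h1, sub_self]
    exact sub_eq_zero.1 ((smul_eq_zero.1 h2).resolve_right hz0)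
  refine ⟨t⁻¹ • z, D.smul_mem _ (hCD hzC), smul_ne_zero (inv_ne_zero ht0) hz0, ?_, ?_, ⟨c, ?_⟩, ?_⟩
  · rw [star_smul, hzs, star_inv₀, hts]
  · rw [smul_mul_smul_comm, hzz, smul_smul, mul_assoc, inv_mul_cancel₀ ht0, mul_one]
  · rw [mul_smul_comm, hs1, mul_smul_comm, hxy, smul_comm s c y, smul_comm t⁻¹ c]
  · intro q hqx
    rw [mul_smul_comm, hq q hqx z hzC]

/-- the corner `q D q` -/
def corner (D : Submodule ℂ (H →L[ℂ] H)) (q : H →L[ℂ] H) : Submodule ℂ (H →L[ℂ] H) where
  carrier := {x | x ∈ D ∧ q * x = x ∧ x * q = x}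
  add_mem' := by
    rintro a b ⟨h1, h2, h3⟩ ⟨h4, h5, h6⟩
    exact ⟨D.add_mem h1 h4, by rw [mul_add, h2, h5], by rw [add_mul, h3, h6]⟩
  zero_mem' := ⟨D.zero_mem, by simp, by simp⟩
  smul_mem' := by
    rintro c a ⟨h1, h2, h3⟩
    exact ⟨D.smul_mem c h1, by rw [mul_smul_comm, h2], by rw [smul_mul_assoc, h3]⟩

/-- a nonzero finite-dimensional star subalgebra has a minimal projection -/
lemma exists_minimal (D : Submodule ℂ (H →L[ℂ] H)) [FiniteDimensional ℂ D]
    (hmul : ∀ x ∈ D, ∀ y ∈ D, x * y ∈ D) (hstar : ∀ x ∈ D, star x ∈ D) (hD : D ≠ ⊥) :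
    ∃ q ∈ D, q ≠ 0 ∧ star q = q ∧ q * q = q ∧ ∀ x ∈ D, ∃ c : ℂ, q * x * q = c • q := by
  classical
  have hex : ∃ n : ℕ, ∃ q ∈ D, q ≠ 0 ∧ star q = q ∧ q * q = q ∧ finrank ℂ (corner D q) = n := by
    obtain ⟨y, hy, hy0⟩ := (Submodule.ne_bot_iff D).1 hD
    obtain ⟨e, he, h1, h2, h3, -⟩ := exists_spec D hmul (hmul _ (hstar y hy) _ hy)
      (by rw [star_mul, star_star]) (star_mul_self_ne hy0)
    exact ⟨_, e, he, h1, h2, h3, rfl⟩
  obtain ⟨q, hq, h0, hs, hqq, hn⟩ := Nat.find_spec hex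
  have hfin : FiniteDimensional ℂ (corner D q) :=
    Submodule.finiteDimensional_of_le (S₂ := D) fun _ h => h.1
  have key : ∀ x ∈ corner D q, star x = x → ∃ c : ℂ, x = c • q := by
    intro x hx hxs
    by_cases hx0 : x = 0
    · exact ⟨0, by simp [hx0]⟩
    obtain ⟨e, he, e0, es, ee, ⟨c, hc⟩, hqe⟩ := exists_spec D hmul hx.1 hxs hx0
    have h1 : q * e = e := hqe q hx.2.1
    have h2 : e * q = e := by
      have := congrArg star h1
      rwa [star_mul, es, hs] at this
    have hle : corner D e ≤ corner D q := by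
      rintro y ⟨y1, y2, y3⟩
      exact ⟨y1, by rw [← y2, ← mul_assoc, h1], by rw [← y3, mul_assoc, h2]⟩
    have hmin := Nat.find_min' hex ⟨e, he, e0, es, ee, rfl⟩
    rw [← hn] at hmin
    have heq : corner D e = corner D q := Submodule.eq_of_le_of_finrank_le hle hmin
    have hqe' : q ∈ corner D e := heq ▸ (⟨hq, hqq, hqq⟩ : q ∈ corner D q)
    have h3 : e = q := by rw [← h2]; exact hqe'.2.1
    refine ⟨c, ?_⟩
    rw [← hx.2.2, ← h3, hc]
  refine ⟨q, hq, h0, hs, hqq, fun x hx => ?_⟩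
  have hy : q * x * q ∈ corner D q := ⟨hmul _ (hmul _ hq _ hx) _ hq,
    by rw [← mul_assoc, ← mul_assoc, hqq], by rw [mul_assoc, hqq]⟩
  generalize q * x * q = y at hy
  have hy' : star y ∈ corner D q := ⟨hstar _ hy.1,
    by have := congrArg star hy.2.2; rwa [star_mul, hs] at this,
    by have := congrArg star hy.2.1; rwa [star_mul, hs] at this⟩
  obtain ⟨a, ha⟩ := key (y + star y) ((corner D q).add_mem hy hy') (by simp [add_comm])
  obtain ⟨b, hb⟩ := key (Complex.I • (y - star y))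
    ((corner D q).smul_mem _ ((corner D q).sub_mem hy hy')) (by
      rw [star_smul, star_sub, star_star, Complex.star_def, Complex.conj_I, neg_smul, ← smul_neg,
        neg_sub])
  refine ⟨(a - Complex.I * b) / 2, ?_⟩
  have h1 : y - star y = (-Complex.I * b) • q := by
    rw [mul_smul, ← hb, smul_smul]
    simp
  have h2 : (2 : ℂ) • y = (y + star y) + (y - star y) := by rw [two_smul]; abel
  have h3 : y = (1 / 2 : ℂ) • ((2 : ℂ) • y) := by rw [smul_smul]; norm_num
  rw [h3, h2, ha, h1, ← add_smul, smul_smul]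
  congr 1
  ring

/-- one block: elements `w a` with `w a ^* w b = δ q` spanning `D q` -/
lemma exists_block (D : Submodule ℂ (H →L[ℂ] H)) [FiniteDimensional ℂ D]
    (hmul : ∀ x ∈ D, ∀ y ∈ D, x * y ∈ D) (hstar : ∀ x ∈ D, star x ∈ D) {q : H →L[ℂ] H}
    (hq : q ∈ D) (h0 : q ≠ 0) (hs : star q = q) (hqq : q * q = q)
    (hmin : ∀ x ∈ D, ∃ c : ℂ, q * x * q = c • q) :
    ∃ (m : ℕ) (w : Fin m → H →L[ℂ] H), 0 < m ∧ (∀ a, w a ∈ D) ∧ (∀ a, w a * q = w a) ∧
      (∀ a, star (w a) * w a = q) ∧ (∀ a b, a ≠ b → star (w a) * w b = 0) ∧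
      ∀ x ∈ D, x * q = x → ∃ c : Fin m → ℂ, x = ∑ a, c a • w a := by
  obtain ⟨η, hη⟩ : ∃ η : H, q η ≠ 0 := by
    by_contra! h
    exact h0 (ContinuousLinearMap.ext h)
  let ξ : H := ((‖q η‖ : ℂ))⁻¹ • q η
  have hn : (‖q η‖ : ℂ) ≠ 0 := by exact_mod_cast norm_ne_zero_iff.2 hη
  have hξ : q ξ = ξ := by
    simp only [ξ, map_smul]
    rw [← mul_apply_eq_comp, hqq]
  have hξ1 : inner ℂ ξ ξ = (1 : ℂ) := by
    rw [show ξ = ((‖q η‖ : ℂ))⁻¹ • q η from rfl, inner_smul_left, inner_smul_right,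
      inner_self_eq_norm_sq_to_K, map_inv₀, Complex.conj_ofReal]
    change (‖q η‖ : ℂ)⁻¹ * ((‖q η‖ : ℂ)⁻¹ * (‖q η‖ : ℂ) ^ 2) = 1
    field_simp
  let L : Submodule ℂ (H →L[ℂ] H) :=
    { carrier := {x | x ∈ D ∧ x * q = x}
      add_mem' := by
        rintro a b ⟨h1, h3⟩ ⟨h4, h6⟩
        exact ⟨D.add_mem h1 h4, by rw [add_mul, h3, h6]⟩
      zero_mem' := ⟨D.zero_mem, by simp⟩
      smul_mem' := by
        rintro c a ⟨h1, h3⟩
        exact ⟨D.smul_mem c h1, by rw [smul_mul_assoc, h3]⟩ }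
  have hfin : FiniteDimensional ℂ L := Submodule.finiteDimensional_of_le (S₂ := D) fun _ h => h.1
  have hip : ∀ a ∈ L, ∀ b ∈ L, star a * b = (inner ℂ (a ξ) (b ξ) : ℂ) • q := by
    intro a ha b hb
    obtain ⟨c, hc⟩ := hmin _ (hmul _ (hstar a ha.1) _ hb.1)
    have h1 : q * star a = star a := by
      have := congrArg star ha.2
      rwa [star_mul, hs] at this
    rw [mul_assoc, mul_assoc, hb.2, ← mul_assoc, h1] at hc
    have h2 : inner ℂ (a ξ) (b ξ) = c := by
      rw [← ContinuousLinearMap.adjoint_inner_right, ← ContinuousLinearMap.star_eq_adjoint,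
        ← mul_apply_eq_comp, hc, smul_apply, hξ, inner_smul_right,
        hξ1, mul_one]
    rw [h2, hc]
  let ev : (H →L[ℂ] H) →ₗ[ℂ] H := (ContinuousLinearMap.apply ℂ H ξ).toLinearMap
  let M : Submodule ℂ H := L.map ev
  let b := stdOrthonormalBasis ℂ M
  have hw : ∀ a, ∃ w ∈ L, w ξ = (b a : H) := fun a => (b a).2
  choose w hwL hwb using hw
  have hinj : ∀ x ∈ L, x ξ = 0 → x = 0 := by
    intro x hx h
    by_contra h1
    apply star_mul_self_ne h1
    rw [hip x hx x hx, h, inner_zero_left, zero_smul]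
  have hspan : ∀ x ∈ L, ∃ c : Fin (finrank ℂ M) → ℂ, x = ∑ a, c a • w a := by
    intro x hx
    let v : M := ⟨x ξ, x, hx, rfl⟩
    refine ⟨fun a => b.repr v a, sub_eq_zero.1 (hinj _ (L.sub_mem hx
      (L.sum_mem fun a _ => L.smul_mem _ (hwL a))) ?_)⟩
    have h1 := congrArg Subtype.val (b.sum_repr v)
    simp only [AddSubmonoidClass.coe_finsetSum, SetLike.val_smul, v] at h1
    simp only [sub_apply, sum_apply,
      smul_apply, hwb]
    rw [h1, sub_self]
  refine ⟨finrank ℂ M, w, ?_, fun a => (hwL a).1, fun a => (hwL a).2, fun a => ?_,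
    fun a a' h => ?_, fun x hx h => hspan x ⟨hx, h⟩⟩
  · by_contra h
    obtain ⟨c, hc⟩ := hspan q ⟨hq, hqq⟩
    have : IsEmpty (Fin (finrank ℂ M)) := ⟨fun a => h (Nat.zero_lt_of_lt a.2)⟩
    exact h0 (by rw [hc]; simp)
  · rw [hip _ (hwL a) _ (hwL a), hwb, ← Submodule.coe_inner, inner_self_eq_norm_sq_to_K,
      b.orthonormal.1 a]
    simp
  · rw [hip _ (hwL a) _ (hwL a'), hwb, hwb, ← Submodule.coe_inner, b.orthonormal.2 h, zero_smul]

/-- A system of star matrix units spanning `D`, with index set `X` and block map `β`. -/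
structure IsUnits (D : Submodule ℂ (H →L[ℂ] H)) {X : Type} (β : X → ℕ)
    (ε : X → X → H →L[ℂ] H) : Prop where
  mem : ∀ a b, ε a b ∈ D
  star_eq : ∀ a b, star (ε a b) = ε b a
  off : ∀ a b, β a ≠ β b → ε a b = 0
  orth : ∀ a b c d, b ≠ c → ε a b * ε c d = 0
  mul : ∀ a b c, β a = β b → β b = β c → ε a b * ε b c = ε a c
  ne : ∀ a, ε a a ≠ 0
  span : ∀ x ∈ D, x ∈ Submodule.span ℂ (Set.range fun p : X × X => ε p.1 p.2)

lemma exists_units_aux (n : ℕ) : ∀ (D : Submodule ℂ (H →L[ℂ] H)) [FiniteDimensional ℂ D],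
    finrank ℂ D = n → (∀ x ∈ D, ∀ y ∈ D, x * y ∈ D) → (∀ x ∈ D, star x ∈ D) →
    ∃ (X : Type) (_ : Finite X) (β : X → ℕ) (ε : X → X → H →L[ℂ] H), IsUnits D β ε := by
  induction n using Nat.strong_induction_on with
  | _ n ih =>
  intro D _ hn hmul hstar
  by_cases hD : D = ⊥
  · refine ⟨Empty, inferInstance, fun a => a.elim, fun a => a.elim, fun a => a.elim,
      fun a => a.elim, fun a => a.elim, fun a => a.elim, fun a => a.elim, fun a => a.elim, ?_⟩
    intro x hx
    rw [hD, Submodule.mem_bot] at hx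
    rw [hx]
    exact Submodule.zero_mem _
  obtain ⟨q, hq, h0, hs, hqq, hmin⟩ := exists_minimal D hmul hstar hD
  obtain ⟨m, w, hm, hwD, hwq, hww, hwo, hsp⟩ := exists_block D hmul hstar hq h0 hs hqq hmin
  have hqw : ∀ a, q * star (w a) = star (w a) := fun a => by
    have := congrArg star (hwq a)
    rwa [star_mul, hs] at this
  let z : H →L[ℂ] H := ∑ a, w a * star (w a)
  have hzD : z ∈ D := D.sum_mem fun a _ => hmul _ (hwD a) _ (hstar _ (hwD a))
  have hzs : star z = z := by simp only [z, star_sum, star_mul, star_star]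
  have hzw : ∀ a, z * w a = w a := by
    intro a
    simp only [z, Finset.sum_mul, mul_assoc]
    rw [Finset.sum_eq_single a (fun b _ h => by rw [hwo b a h, mul_zero]) (by simp), hww, hwq]
  have hzl : ∀ x ∈ D, x * q = x → z * x = x := by
    intro x hx h
    obtain ⟨c, rfl⟩ := hsp x hx h
    simp only [Finset.mul_sum, mul_smul_comm, hzw]
  have hz1 : ∀ x ∈ D, z * (x * z) = x * z := by
    intro x hx
    have : ∀ a, z * (x * (w a * star (w a))) = x * (w a * star (w a)) := fun a => by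
      rw [← mul_assoc x, ← mul_assoc z, hzl _ (hmul _ hx _ (hwD a)) (by rw [mul_assoc, hwq])]
    conv_lhs => rw [show x * z = ∑ a, x * (w a * star (w a)) from Finset.mul_sum _ _ _]
    rw [Finset.mul_sum]
    simp only [this]
    exact (Finset.mul_sum _ _ _).symm
  have hzc : ∀ x ∈ D, z * x = x * z := by
    intro x hx
    have h1 := congrArg star (hz1 _ (hstar x hx))
    simp only [star_mul, star_star, hzs] at h1
    rw [← h1, mul_assoc, hz1 x hx]
  have hzz : z * z = z := by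
    conv_lhs => rw [show z * z = ∑ a, z * (w a * star (w a)) from Finset.mul_sum _ _ _]
    simp only [← mul_assoc, hzw]
    rfl
  have hw0 : ∀ a, w a ≠ 0 := fun a h => h0 (by rw [← hww a, h, mul_zero])
  let D' : Submodule ℂ (H →L[ℂ] H) :=
    { carrier := {x | x ∈ D ∧ z * x = 0}
      add_mem' := by
        rintro a b ⟨h1, h3⟩ ⟨h4, h6⟩
        exact ⟨D.add_mem h1 h4, by rw [mul_add, h3, h6, add_zero]⟩
      zero_mem' := ⟨D.zero_mem, by simp⟩
      smul_mem' := by
        rintro c a ⟨h1, h3⟩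
        exact ⟨D.smul_mem c h1, by rw [mul_smul_comm, h3, smul_zero]⟩ }
  have hle : D' ≤ D := fun _ h => h.1
  have hfin : FiniteDimensional ℂ D' := Submodule.finiteDimensional_of_le hle
  have hlt : D' < D := lt_of_le_of_ne hle fun h => by
    have h1 : w ⟨0, hm⟩ ∈ D' := h ▸ hwD _
    exact hw0 _ (by rw [← hzw, h1.2])
  obtain ⟨X, hX, β, ε, hε⟩ := ih _ (hn ▸ Submodule.finrank_lt_finrank_of_lt hlt) D' rfl
    (fun x hx y hy => ⟨hmul _ hx.1 _ hy.1, by rw [← mul_assoc, hx.2, zero_mul]⟩)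
    (fun x hx => ⟨hstar _ hx.1, by
      rw [← hzs, ← star_mul, ← hzc x hx.1, hx.2, star_zero]⟩)
  have hc1 : ∀ a, ∀ x ∈ D', star (w a) * x = 0 := by
    intro a x hx
    have h1 : star (w a) * z = star (w a) := by
      have := congrArg star (hzw a)
      rwa [star_mul, hzs] at this
    rw [← h1, mul_assoc, hx.2, mul_zero]
  have hc2 : ∀ a, ∀ x ∈ D', x * w a = 0 := by
    intro a x hx
    rw [← hzw, ← mul_assoc, ← hzc x hx.1, hx.2, zero_mul]
  refine ⟨Fin m ⊕ X, inferInstance, Sum.elim (fun _ => 0) fun a => β a + 1,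
    Sum.elim (fun a => Sum.elim (fun b => w a * star (w b)) fun _ => 0)
      fun a => Sum.elim (fun _ => 0) fun b => ε a b, ?_, ?_, ?_, ?_, ?_, ?_, ?_⟩
  · rintro (a | a) (b | b)
    · exact hmul _ (hwD a) _ (hstar _ (hwD b))
    · exact D.zero_mem
    · exact D.zero_mem
    · exact (hε.mem a b).1
  · rintro (a | a) (b | b)
    · simp
    · simp
    · simp
    · exact hε.star_eq a b
  · rintro (a | a) (b | b) h
    · exact absurd rfl h
    · rfl
    · rfl
    · exact hε.off a b fun h1 => h (by simp [h1])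
  · rintro (a | a) (b | b) (c | c) (d | d) h <;> simp only [Sum.elim_inl, Sum.elim_inr, mul_zero,
      zero_mul]
    · rw [mul_assoc, ← mul_assoc (star (w b)), hwo b c fun h1 => h (by rw [h1]), zero_mul, mul_zero]
    · rw [mul_assoc, hc1 _ _ (hε.mem c d), mul_zero]
    · rw [← mul_assoc, hc2 _ _ (hε.mem a b), zero_mul]
    · exact hε.orth a b c d fun h1 => h (by rw [h1])
  · rintro (a | a) (b | b) (c | c) h1 h2 <;> simp only [Sum.elim_inl, Sum.elim_inr] at h1 h2 ⊢
    · rw [mul_assoc, ← mul_assoc (star (w b)), hww, hqw]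
    all_goals first | omega | exact hε.mul a b c (by omega) (by omega)
  · rintro (a | a)
    · intro h
      have h1 : w a * star (w a) * w a = w a := by rw [mul_assoc, hww, hwq]
      simp only [Sum.elim_inl] at h
      exact hw0 a (by rw [← h1, h, zero_mul])
    · exact hε.ne a
  · intro x hx
    have h1 : x = x * z + (x - z * x) := by rw [hzc x hx]; abel
    rw [h1]
    refine Submodule.add_mem _ ?_ ?_
    · rw [show x * z = ∑ a, x * (w a * star (w a)) from Finset.mul_sum _ _ _]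
      refine Submodule.sum_mem _ fun a _ => ?_
      obtain ⟨c, hc⟩ := hsp _ (hmul _ hx _ (hwD a)) (by rw [mul_assoc, hwq])
      rw [← mul_assoc, hc, Finset.sum_mul]
      refine Submodule.sum_mem _ fun b _ => ?_
      rw [smul_mul_assoc]
      exact Submodule.smul_mem _ _ (Submodule.subset_span ⟨(Sum.inl b, Sum.inl a), rfl⟩)
    · have h2 : x - z * x ∈ D' := ⟨D.sub_mem hx (hmul _ hzD _ hx),
        by rw [mul_sub, ← mul_assoc, hzz, sub_self]⟩
      refine Submodule.span_mono ?_ (hε.span _ h2)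
      rintro _ ⟨p, rfl⟩
      exact ⟨(Sum.inr p.1, Sum.inr p.2), rfl⟩

/-- A finite-dimensional star subalgebra of `B(H)` is spanned by star matrix units. -/
theorem exists_units (D : Submodule ℂ (H →L[ℂ] H)) [FiniteDimensional ℂ D]
    (hmul : ∀ x ∈ D, ∀ y ∈ D, x * y ∈ D) (hstar : ∀ x ∈ D, star x ∈ D) :
    ∃ (n : ℕ) (β : Fin n → ℕ) (ε : Fin n → Fin n → H →L[ℂ] H), IsUnits D β ε := by
  obtain ⟨X, hX, β, ε, h⟩ := exists_units_aux _ D rfl hmul hstar
  obtain ⟨n, ⟨e⟩⟩ := Finite.exists_equiv_fin X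
  refine ⟨n, fun a => β (e.symm a), fun a b => ε (e.symm a) (e.symm b), fun a b => h.mem _ _,
    fun a b => h.star_eq _ _, fun a b => h.off _ _,
    fun a b c d h1 => h.orth _ _ _ _ fun h2 => h1 (e.symm.injective h2),
    fun a b c => h.mul _ _ _, fun a => h.ne _, fun x hx => Submodule.span_mono ?_ (h.span x hx)⟩
  rintro _ ⟨p, rfl⟩
  exact ⟨(e p.1, e p.2), by simp⟩

end Pool.Agent.Lib.BM10
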